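import Pool.Agent.Helper44.CM.Interface

/-!
# Project MM: calculus of `pd`
-/

open MeasureTheory

namespace CM48
open CM

variable {n : ℕ}

lemma contDiff_pd {k : ℕ} {f : E n → ℝ} (hf : ContDiff ℝ (k + 1 : ℕ) f) (i : Fin n) :
    ContDiff ℝ (k : ℕ) (pd i f) := by
  unfold pd
  have h : ContDiff ℝ (k : ℕ) (fderiv ℝ f) := by
    refine hf.fderiv_right ?_
    norm_cast
  exact h.clm_apply contDiff_const

lemma diff_of {k : ℕ} {f : E n → ℝ} (hf : ContDiff ℝ (k + 1 : ℕ) f) : Differentiable ℝ f :=
  hf.differentiable (by norm_cast)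

lemma pd_add {f g : E n → ℝ} (hf : Differentiable ℝ f) (hg : Differentiable ℝ g) (i : Fin n) :
    pd i (fun x => f x + g x) = fun x => pd i f x + pd i g x := by
  funext x
  unfold pd
  have := ((hf x).hasFDerivAt.add (hg x).hasFDerivAt).fderiv
  rw [show (fun x => f x + g x) = f + g from rfl, this]
  rfl

lemma pd_sub {f g : E n → ℝ} (hf : Differentiable ℝ f) (hg : Differentiable ℝ g) (i : Fin n) :
    pd i (fun x => f x - g x) = fun x => pd i f x - pd i g x := by
  funext x
  unfold pd
  have := ((hf x).hasFDerivAt.sub (hg x).hasFDerivAt).fderiv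
  rw [show (fun x => f x - g x) = f - g from rfl, this]
  rfl

lemma pd_neg {f : E n → ℝ} (i : Fin n) :
    pd i (fun x => - f x) = fun x => - pd i f x := by
  funext x
  unfold pd
  rw [show (fun x => - f x) = -f from rfl, fderiv_neg]
  rfl

lemma pd_mul {f g : E n → ℝ} (hf : Differentiable ℝ f) (hg : Differentiable ℝ g) (i : Fin n) :
    pd i (fun x => f x * g x) = fun x => f x * pd i g x + g x * pd i f x := by
  funext x
  unfold pd
  have := ((hf x).hasFDerivAt.mul (hg x).hasFDerivAt).fderiv
  rw [show (fun x => f x * g x) = f * g from rfl, this]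
  simp

lemma pd_const_mul {f : E n → ℝ} (c : ℝ) (hf : Differentiable ℝ f) (i : Fin n) :
    pd i (fun x => c * f x) = fun x => c * pd i f x := by
  funext x
  unfold pd
  rw [fderiv_const_mul (hf x)]
  simp

lemma pd_const (c : ℝ) (i : Fin n) : pd i (fun _ : E n => c) = fun _ => 0 := by
  funext x
  unfold pd
  simp

lemma pd_sum {ι : Type*} (s : Finset ι) {f : ι → E n → ℝ} (hf : ∀ a ∈ s, Differentiable ℝ (f a))
    (i : Fin n) : pd i (fun x => ∑ a ∈ s, f a x) = fun x => ∑ a ∈ s, pd i (f a) x := by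
  funext x
  unfold pd
  rw [fderiv_fun_sum (fun a ha => (hf a ha) x)]
  simp

lemma pd_comm {f : E n → ℝ} (hf : ContDiff ℝ 2 f) (i j : Fin n) :
    pd i (pd j f) = pd j (pd i f) := by
  funext x
  have h2 : ContDiffAt ℝ 2 f x := hf.contDiffAt
  have hsymm := h2.isSymmSndFDerivAt (by simp)
  have hd : DifferentiableAt ℝ (fderiv ℝ f) x :=
    (hf.fderiv_right (m := 1) (by norm_num)).differentiable (by norm_num) x
  have key : ∀ a b : Fin n, pd a (pd b f) x =
      fderiv ℝ (fderiv ℝ f) x (EuclideanSpace.single a 1) (EuclideanSpace.single b 1) := by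
    intro a b
    unfold pd
    rw [fderiv_clm_apply hd (differentiableAt_const _)]
    simp
  rw [key, key]
  exact hsymm.eq _ _

lemma eul_eq (f : E n → ℝ) (x : E n) : eul f x = ∑ i, x i * pd i f x := by
  unfold eul pd
  have hx : x = ∑ i, x i • EuclideanSpace.single i (1 : ℝ) := by
    ext j
    simp [Finset.sum_apply, Pi.single_apply]
  have h2 : fderiv ℝ f x x = fderiv ℝ f x (∑ i, x i • EuclideanSpace.single i (1 : ℝ)) := by
    rw [← hx]
  rw [h2, map_sum]
  simp

end CM48
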