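import Pool.Agent.Helper44.CM.StmtsB5
import Pool.Agent.Helper48.CM.Base

/-!
# Project MM, row PACK: uniform bounds for all solutions
-/

open MeasureTheory

namespace CM48
open CM

variable {n : ℕ}

lemma LB_mono {c c' : ℝ} {M : Mt n} (h : c' ≤ c) (hM : LB c M) : LB c' M := by
  intro v
  have h1 : 0 ≤ ∑ i, v i ^ 2 := Finset.sum_nonneg fun i _ => sq_nonneg _
  exact (mul_le_mul_of_nonneg_right h h1).trans (hM v)

lemma Coef_mono {K K' : ℝ} {τ : E n → Mt n} (h : K ≤ K') (hK : Coef K τ) : Coef K' τ := by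
  have h1 := hK.K_ge
  refine ⟨h1.trans h, hK.symm, fun x => LB_mono ?_ (hK.lo x), fun x i j => (hK.bd x i j).trans h,
    fun x y i j => (hK.lip x y i j).trans (mul_le_mul_of_nonneg_right h dist_nonneg),
    fun x i j => (hK.far x i j).trans ?_⟩
  · exact inv_anti₀ (by linarith) h
  · exact div_le_div_of_nonneg_right h (Real.sqrt_nonneg _)

lemma pd_coord (b i : Fin n) :
    pd b (fun y : E n => y i) = fun _ => if b = i then 1 else 0 := by
  funext x
  unfold pd
  have h : (fun y : E n => y i) = (EuclideanSpace.proj i : E n →L[ℝ] ℝ) := by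
    funext y; rfl
  rw [h, ContinuousLinearMap.fderiv]
  simp [eq_comm]

lemma diff_coord (i : Fin n) : Differentiable ℝ (fun y : E n => y i) :=
  (EuclideanSpace.proj i : E n →L[ℝ] ℝ).differentiable

lemma cd_coord (i : Fin n) {k : WithTop ℕ∞} : ContDiff ℝ k (fun y : E n => y i) :=
  (EuclideanSpace.proj i : E n →L[ℝ] ℝ).contDiff

/-- Second derivatives of `∂_i V - x_i`. -/
lemma pd_ui {V : E n → ℝ} (hV : ContDiff ℝ 3 V) (i a b : Fin n) :
    pd a (pd b (fun y => pd i V y - y i)) = pd a (pd b (pd i V)) := by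
  have h1 : ContDiff ℝ (2 : ℕ) (pd i V) := contDiff_pd (k := 2) (by exact_mod_cast hV) i
  have h2 : ContDiff ℝ (1 : ℕ) (pd b (pd i V)) := contDiff_pd (k := 1) (by exact_mod_cast h1) b
  rw [pd_sub (diff_of (k := 1) (by exact_mod_cast h1)) (diff_coord i), pd_coord,
    pd_sub (diff_of (k := 0) (by exact_mod_cast h2)) (differentiable_const _), pd_const]
  funext x
  simp

/-- The bound at level `j` of the Hessian. -/
def PP (n : ℕ) (c K R0 : ℝ) (j : ℕ) : Prop :=
  ∃ a : ℝ, ∀ F V : E n → ℝ, FOK c K R0 F → Sol F V → ∀ i i', HB j a (pd i (pd i' V))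

lemma sol_cd {F V : E n → ℝ} (hS : Sol F V) : ContDiff ℝ 5 V := by
  obtain ⟨M, hM, _⟩ := hS.reg
  exact_mod_cast hM

lemma pp_zero (h1 : ST_B1) (hLIP : ST_LIP0) (n : ℕ) (c K R0 : ℝ) : PP n c K R0 0 := by
  obtain ⟨K1, hK1⟩ := h1 n c K R0
  refine ⟨2 * (n + 1) * K1, fun F V hF hS i i' => ?_⟩
  obtain ⟨_, hb, h3, _⟩ := hK1 F V hF hS
  have hV := sol_cd hS
  have h4 : ContDiff ℝ (4 : ℕ) (pd i' V) := contDiff_pd (k := 4) (by exact_mod_cast hV) i'
  have h5 : ContDiff ℝ (3 : ℕ) (pd i (pd i' V)) := contDiff_pd (k := 3) (by exact_mod_cast h4) i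
  refine ⟨h5.of_le (by norm_num), ?_⟩
  intro l hl
  have hl0 : l = [] := List.length_eq_zero_iff.mp (Nat.le_zero.mp hl)
  subst hl0
  refine hLIP n K1 _ (h5.of_le (by norm_num)) (fun x => ?_) (fun x k => ?_)
  · exact hb x i i'
  · exact h3 x [k, i, i'] rfl

lemma pp_step (h1 : ST_B1) (hCOEF : ST_COEF) (hHIGH : ST_HIGH) (hDIFF : ST_DIFFEQ)
    (hALG : ST_HBALG) (hINV : ST_HBINV) (hEV : ST_EVLOC) (hLIP : ST_LIP0)
    (n : ℕ) (c K R0 : ℝ) (hc : 0 < c) (j : ℕ) (hj : j ≤ 2) (hP : PP n c K R0 j) :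
    PP n c K R0 (j + 1) := by
  obtain ⟨a, ha⟩ := hP
  obtain ⟨K1, hK1⟩ := h1 n c K R0
  obtain ⟨a0, ha0⟩ := pp_zero h1 hLIP n c K R0
  obtain ⟨K', hK'⟩ := hCOEF n c K1 hc
  obtain ⟨C1, hC1⟩ := hINV n j c a hc
  obtain ⟨C, R, hH⟩ := hHIGH n j (max K' C1) 0 (by norm_num)
  obtain ⟨Ce, hCe⟩ := hEV n (max R 0) (le_max_right _ _)
  obtain ⟨_, _, hmono, _, _, _, hpd, hup, _, _⟩ := hALG n
  set N : ℝ := max K (max (Ce * K1 + max R 0) (K1 + 1)) with hN
  refine ⟨max a0 (C * N), fun F V hF hS i i' => ?_⟩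
  obtain ⟨hlo, hb, h3, hfar⟩ := hK1 F V hF hS
  have hV := sol_cd hS
  have h4 : ∀ i, ContDiff ℝ (4 : ℕ) (pd i V) := fun i =>
    contDiff_pd (k := 4) (by exact_mod_cast hV) i
  have h5 : ∀ i i', ContDiff ℝ (3 : ℕ) (pd i (pd i' V)) := fun i i' =>
    contDiff_pd (k := 3) (by exact_mod_cast h4 i') i
  have hco : Coef (max K' C1) (tau V) := Coef_mono (le_max_left _ _)
    (hK' V (hV.of_le (by norm_num)) hlo hb h3 hfar)
  have htau : ∀ p q, HB j (max K' C1) (fun x => tau V x p q) := by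
    intro p q
    exact hmono j j _ _ _ le_rfl (le_max_right _ _) (hC1 (hess V) hlo (fun i j' => ha F V hF hS i j') p q)
  obtain ⟨M, hM, hM2⟩ := hS.reg
  -- the estimate for `∂_q V - x_q`
  have hu : ∀ q, H2 j (C * N) (fun y => pd q V y - y q) := by
    intro q
    have hF5 : ContDiff ℝ 5 F := by exact_mod_cast hF.bd.1
    have hcd : ContDiff ℝ (j + 2 : ℕ) (fun y : E n => pd q V y - y q) := by
      refine ContDiff.sub ?_ (cd_coord q)
      exact (h4 q).of_le (by norm_cast; omega)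
    have hreg : H2 j M (fun y => pd q V y - y q) := by
      refine ⟨hcd, fun p r => ?_⟩
      rw [pd_ui (hV.of_le (by norm_num)) q p r]
      have := hpd 2 M _ (hM2 r q) p
      exact hmono 2 j _ _ _ hj le_rfl this
    have heq : AK (tau V) 0 (fun y => pd q V y - y q) = pd q F := by
      funext x
      exact hDIFF n F V q (hF5.of_le (by norm_num)) hS x
    have hrhs : HB j N (AK (tau V) 0 (fun y => pd q V y - y q)) := by
      rw [heq]
      have := hpd 4 K F hF.bd q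
      exact hmono 4 j _ _ _ (by omega) (le_max_left _ _) this
    have hloc := hCe V |V 0| K1 (hV.of_le (by norm_num)) hS.even le_rfl
      (fun x i j _ => hb x i j)
    refine hH (tau V) hco htau _ M N hreg hrhs ?_ ?_
    · intro x hx
      have hx' : ‖x‖ ≤ max R 0 := hx.trans (le_max_left _ _)
      have e1 := (hloc x hx').2 q
      have e2 : |x q| ≤ max R 0 := by
        have := PiLp.norm_apply_le x q
        rw [Real.norm_eq_abs] at this
        exact this.trans hx'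
      calc |pd q V x - x q| ≤ |pd q V x| + |x q| := abs_sub _ _
        _ ≤ Ce * K1 + max R 0 := add_le_add e1 e2
        _ ≤ N := (le_max_left _ _).trans (le_max_right _ _)
    · intro x p hx
      rw [pd_sub (diff_of (k := 3) (by exact_mod_cast h4 q)) (diff_coord q), pd_coord]
      have e1 : |pd p (pd q V) x| ≤ K1 := hb x p q
      have e2 : |(if p = q then (1 : ℝ) else 0)| ≤ 1 := by split_ifs <;> simp
      calc |pd p (pd q V) x - (if p = q then (1 : ℝ) else 0)|
          ≤ |pd p (pd q V) x| + |(if p = q then (1 : ℝ) else 0)| := abs_sub _ _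
        _ ≤ K1 + 1 := add_le_add e1 e2
        _ ≤ N := (le_max_right _ _).trans (le_max_right _ _)
  -- conclusion
  refine hup j _ _ ((h5 i i').of_le (by norm_cast; omega)) ?_ (fun k => ?_)
  · have h0 := (ha0 F V hF hS i i').2 [] (by simp)
    have h0' : H0 a0 (pd i (pd i' V)) := h0
    exact ⟨fun x => (h0'.1 x).trans (le_max_left _ _), fun x y => (h0'.2 x y).trans
      (mul_le_mul_of_nonneg_right (le_max_left _ _) (Real.sqrt_nonneg _))⟩
  · have := (hu i').2 k i
    rw [pd_ui (hV.of_le (by norm_num)) i' k i] at this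
    exact hmono j j _ _ _ le_rfl (le_max_right _ _) this

theorem st_PACK (h1 : ST_B1) (hCOEF : ST_COEF) (hHIGH : ST_HIGH) (hDIFF : ST_DIFFEQ)
    (hALG : ST_HBALG) (hINV : ST_HBINV) (hEV : ST_EVLOC) (hLIP : ST_LIP0) : ST_PACK := by
  intro n c K R0
  by_cases hc : 0 < c
  swap
  · exact ⟨0, fun F V hF _ => absurd hF.c_pos hc⟩
  have hP0 := pp_zero h1 hLIP n c K R0
  have hP1 := pp_step h1 hCOEF hHIGH hDIFF hALG hINV hEV hLIP n c K R0 hc 0 (by norm_num) hP0
  have hP2 := pp_step h1 hCOEF hHIGH hDIFF hALG hINV hEV hLIP n c K R0 hc 1 (by norm_num) hP1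
  have hP3 := pp_step h1 hCOEF hHIGH hDIFF hALG hINV hEV hLIP n c K R0 hc 2 (by norm_num) hP2
  obtain ⟨a3, ha3⟩ := hP3
  obtain ⟨K1, hK1⟩ := h1 n c K R0
  refine ⟨max a3 (max K1 K), fun F V hF hS => ?_⟩
  obtain ⟨hlo, hb, h3, hfar⟩ := hK1 F V hF hS
  obtain ⟨_, _, hmono, _, _, _, hpd, hup, _, _⟩ := hALG n
  refine ⟨hlo, ⟨by exact_mod_cast sol_cd hS, fun i j => ?_⟩, fun x i j => ?_, fun x => ?_⟩
  · exact hmono 3 3 _ _ _ le_rfl (le_max_left _ _) (ha3 F V hF hS i j)
  · refine (hfar x i j).trans (div_le_div_of_nonneg_right ?_ (Real.sqrt_nonneg _))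
    exact (le_max_left _ _).trans (le_max_right _ _)
  · rw [hS.eq x]
    have := (hF.bd.2 [] (by simp)).1 x
    have h2 : |F x| ≤ K := this
    simp only [add_sub_cancel_left]
    exact h2.trans ((le_max_right _ _).trans (le_max_right _ _))

end CM48
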